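import Pool.Agent.H97.RU.RUB
import Pool.Agent.H97.RU.RUD

/-! # [H97 RU RUN] RUNGE's theorem, uniform in the coefficients

`K1` of `to_mon n`, `K2` of `rung n`. `H' = H^K1` (if `K1 = 0` take `K1 + 1`, so that `H' ≥ 2`). For a zero `(x, y)`: `X' = x - c y`, `W = a y`: `|X'| ≤ H'^K2`. `W` is a root of the monic
polynomial `G(X', ·)` of degree `≤ n` whose other coefficients are `≤ (n + 1) H' max(1, |X'|)^n ≤ H^C`: `|W| ≤ 1 + n H^C` (a root of a monic polynomial of degree `d` with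
the other coefficients `≤ M` has `|W| ≤ 1 + d M`: otherwise `|W|^d > ∑ M |W|^j`). `|y| ≤ |W|` (`a ≠ 0`), `|x| ≤ |X'| + n |y|`. All bounded by `H^K`, `K = K(n)` (`2 ≤ H`, so constants
are powers of `H`). -/

namespace Pool.Agent.H97.RU

open Finset Polynomial Pool.Agent.H97.SI

private theorem run_in {p : ℤ[X]} {n : ℕ} {H B X' : ℤ} (hd : p.natDegree ≤ n) (hH : 0 ≤ H)
    (hB : 1 ≤ B) (hX : |X'| ≤ B) (hc : ∀ i, |p.coeff i| ≤ H) :
    |p.eval X'| ≤ (n + 1) * (H * B ^ n) := by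
  rw [eval_eq_sum_range]
  refine (Finset.abs_sum_le_sum_abs _ _).trans ?_
  have h1 : ∀ i ∈ range (p.natDegree + 1), |p.coeff i * X' ^ i| ≤ H * B ^ n := by
    intro i hi
    rw [Finset.mem_range] at hi
    rw [abs_mul, abs_pow]
    refine mul_le_mul (hc i) ?_ (pow_nonneg (abs_nonneg _) _) hH
    exact (pow_le_pow_left₀ (abs_nonneg _) hX i).trans (pow_le_pow_right₀ hB (by omega))
  refine (Finset.sum_le_card_nsmul _ _ _ h1).trans ?_
  rw [Finset.card_range, nsmul_eq_mul]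
  refine mul_le_mul_of_nonneg_right ?_ (mul_nonneg hH (pow_nonneg (by linarith) _))
  push_cast
  have : (p.natDegree : ℤ) ≤ n := by exact_mod_cast hd
  linarith

private theorem run_out {D : ℕ} {M W : ℤ} {c : ℕ → ℤ} (hM : 0 ≤ M)
    (hc : ∀ j < D, |c j| ≤ M) (h : ∑ j ∈ range D, c j * W ^ j + W ^ D = 0) : |W| ≤ D * M := by
  rcases lt_or_ge |W| 1 with h1 | h1
  · have h2 : |W| = 0 := by
      have := abs_nonneg W
      omega
    rw [h2]
    positivity
  · rcases Nat.eq_zero_or_pos D with hD | hD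
    · subst hD
      rw [Finset.range_zero, Finset.sum_empty, pow_zero] at h
      norm_num at h
    · obtain ⟨d, rfl⟩ : ∃ d, D = d + 1 := ⟨D - 1, by omega⟩
      have h2 : |W| ^ (d + 1) ≤ ((d + 1 : ℕ) : ℤ) * (M * |W| ^ d) := by
        rw [← abs_pow]
        have h3 : W ^ (d + 1) = -∑ j ∈ range (d + 1), c j * W ^ j := by linarith
        rw [h3, abs_neg]
        refine (Finset.abs_sum_le_sum_abs _ _).trans ?_
        have h4 : ∀ j ∈ range (d + 1), |c j * W ^ j| ≤ M * |W| ^ d := by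
          intro j hj
          rw [Finset.mem_range] at hj
          rw [abs_mul, abs_pow]
          exact mul_le_mul (hc j hj) (pow_le_pow_right₀ h1 (by omega))
            (pow_nonneg (abs_nonneg _) _) hM
        refine (Finset.sum_le_card_nsmul _ _ _ h4).trans ?_
        rw [Finset.card_range, nsmul_eq_mul]
      have h5 : (0 : ℤ) < |W| ^ d := pow_pos (by linarith) _
      have h6 : |W| * |W| ^ d ≤ (((d + 1 : ℕ) : ℤ) * M) * |W| ^ d := by
        rw [← pow_succ']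
        refine h2.trans (le_of_eq (by ring))
      exact le_of_mul_le_mul_right h6 h5

private theorem run_root {G : ℤ[X][X]} {n : ℕ} {H B X' W : ℤ} (hG : G.Monic)
    (hn : G.natDegree ≤ n) (hw : ∀ j, (G.coeff j).natDegree ≤ G.natDegree - j) (hH : 0 ≤ H)
    (hB : 1 ≤ B) (hX : |X'| ≤ B) (hc : ∀ i j, |(G.coeff j).coeff i| ≤ H)
    (h : evalEval X' W G = 0) : |W| ≤ n * ((n + 1) * (H * B ^ n)) := by
  have h1 : ∑ j ∈ range G.natDegree, (G.coeff j).eval X' * W ^ j + W ^ G.natDegree = 0 := by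
    have h2 : evalEval X' W G = ∑ j ∈ range (G.natDegree + 1), (G.coeff j).eval X' * W ^ j := by
      unfold evalEval
      rw [eval_eq_sum_range (p := G) (C W), eval_finsetSum]
      refine Finset.sum_congr rfl fun j _ => ?_
      rw [eval_mul, eval_pow, eval_C]
    rw [h, Finset.sum_range_succ, hG.coeff_natDegree, eval_one, one_mul] at h2
    exact h2.symm
  have hM : 0 ≤ ((n : ℤ) + 1) * (H * B ^ n) :=
    mul_nonneg (by positivity) (mul_nonneg hH (pow_nonneg (by linarith) _))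
  have h3 := run_out (D := G.natDegree) (c := fun j => (G.coeff j).eval X') hM
    (fun j _ => run_in ((hw j).trans (by omega)) hH hB hX fun i => hc i j) h1
  refine h3.trans (mul_le_mul_of_nonneg_right ?_ hM)
  exact_mod_cast hn

/-- **Runge's theorem**, uniform: if the leading form of `F` is a product of two coprime forms over `ℚ`, the integer zeros of `F` are bounded by a power of the height of `F`
that depends only on the degree -/
theorem runge (n : ℕ) : ∃ K : ℕ, ∀ (H : ℕ) (F : MvPolynomial (Fin 2) ℤ), 2 ≤ H → F.totalDegree ≤ n →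
    (∀ m, |F.coeff m| ≤ (H : ℤ)) → Irreducible (MvPolynomial.map (Int.castRingHom ℚ) F) →
    ∀ (d1 d2 : ℕ) (g h : MvPolynomial (Fin 2) ℚ), g.IsHomogeneous d1 → h.IsHomogeneous d2 → 0 < d1 → 0 < d2 →
    IsRelPrime g h →
    MvPolynomial.homogeneousComponent (d1 + d2) (MvPolynomial.map (Int.castRingHom ℚ) F) = g * h →
    F.totalDegree = d1 + d2 →
    ∀ x y : ℤ, MvPolynomial.eval ![x, y] F = 0 → |x| ≤ (H : ℤ) ^ K ∧ |y| ≤ (H : ℤ) ^ K := by
  obtain ⟨K1, h1⟩ := to_mon n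
  obtain ⟨K2, h2⟩ := rung n
  obtain ⟨E, hE⟩ : ∃ E : ℕ, E = n + ((n + 1) + ((K1 + 1) + (K1 + 1) * K2 * n)) := ⟨_, rfl⟩
  refine ⟨1 + ((K1 + 1) * K2 + (n + E)), fun H F hH hn hF hirr d1 d2 g h hg hh hd1 hd2 hrel hhom htd
    x y hxy => ?_⟩
  obtain ⟨c, a, G, P1, P2, hc, ha, haH, hGm, hG1, hGn, hGw, hGc, hGi, hP1, hP2, hp1, hp2, hcop, hlf,
    hz⟩ := h1 H F hH hn hF hirr d1 d2 g h hg hh hd1 hd2 hrel hhom htd
  have hz1 := hz x y hxy
  have hHZ : (2 : ℤ) ≤ H := by exact_mod_cast hH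
  have hH1 : (1 : ℤ) ≤ H := by linarith
  have hle : H ^ K1 ≤ H ^ (K1 + 1) := Nat.pow_le_pow_right (by omega) (by omega)
  have h2le : 2 ≤ H ^ (K1 + 1) := by
    calc 2 ≤ H := hH
      _ = H ^ 1 := (pow_one H).symm
      _ ≤ H ^ (K1 + 1) := Nat.pow_le_pow_right (by omega) (by omega)
  have hGc' : ∀ i j, |(G.coeff j).coeff i| ≤ ((H ^ (K1 + 1) : ℕ) : ℤ) := fun i j =>
    (hGc i j).trans (by exact_mod_cast hle)
  have hX := h2 (H ^ (K1 + 1)) G h2le hGm hG1 hGn hGw hGc' hGi P1 P2 hP1 hP2 hp1 hp2 hcop hlf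
    (x - c * y) (a * y) hz1
  have hX' : |x - c * y| ≤ (H : ℤ) ^ ((K1 + 1) * K2) := by
    refine hX.trans (le_of_eq ?_)
    push_cast
    rw [← pow_mul]
  have hB : (1 : ℤ) ≤ (H : ℤ) ^ ((K1 + 1) * K2) := one_le_pow₀ hH1
  have hHK : (0 : ℤ) ≤ ((H ^ (K1 + 1) : ℕ) : ℤ) := by positivity
  have hW := run_root hGm hGn hGw hHK hB hX' hGc' hz1
  have hpn : ∀ m : ℕ, (m : ℤ) ≤ (H : ℤ) ^ m := by
    intro m
    have h3 : m < 2 ^ m := Nat.lt_two_pow_self
    have h4 : 2 ^ m ≤ H ^ m := Nat.pow_le_pow_left hH m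
    exact_mod_cast (h3.le.trans h4)
  have hWE : |a * y| ≤ (H : ℤ) ^ E := by
    refine hW.trans ?_
    have e0 : (H : ℤ) ^ E = H ^ n * (H ^ (n + 1) * (H ^ (K1 + 1) * H ^ ((K1 + 1) * K2 * n))) := by
      rw [hE, pow_add (H : ℤ) n, pow_add (H : ℤ) (n + 1), pow_add (H : ℤ) (K1 + 1)]
    rw [e0, Nat.cast_pow]
    have e1 : (((H : ℤ) ^ ((K1 + 1) * K2)) ^ n) = (H : ℤ) ^ ((K1 + 1) * K2 * n) := by
      rw [← pow_mul]
    rw [e1]
    refine mul_le_mul (hpn n) ?_ (by positivity) (by positivity)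
    refine mul_le_mul ?_ le_rfl (by positivity) (by positivity)
    have := hpn (n + 1)
    push_cast at this
    exact this
  have hy : |y| ≤ (H : ℤ) ^ E := by
    refine le_trans ?_ hWE
    rw [abs_mul]
    have h3 : 1 ≤ |a| := Int.one_le_abs ha
    nlinarith [abs_nonneg y]
  constructor
  · have h3 : |x| ≤ |x - c * y| + n * |y| := by
      have h4 : x = (x - c * y) + c * y := by ring
      have h5 : |x| ≤ |x - c * y| + |c * y| := by
        conv_lhs => rw [h4]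
        exact abs_add_le _ _
      have h6 : |(c : ℤ) * y| ≤ n * |y| := by
        rw [abs_mul, Nat.abs_cast]
        refine mul_le_mul_of_nonneg_right ?_ (abs_nonneg _)
        exact_mod_cast hc
      linarith
    have h4 : (n : ℤ) * |y| ≤ (H : ℤ) ^ (n + E) := by
      rw [pow_add]
      exact mul_le_mul (hpn n) hy (abs_nonneg _) (by positivity)
    have h5 : (H : ℤ) ^ ((K1 + 1) * K2) ≤ (H : ℤ) ^ ((K1 + 1) * K2 + (n + E)) :=
      pow_le_pow_right₀ hH1 (by omega)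
    have h6 : (H : ℤ) ^ (n + E) ≤ (H : ℤ) ^ ((K1 + 1) * K2 + (n + E)) :=
      pow_le_pow_right₀ hH1 (by omega)
    have h7 : (0 : ℤ) < (H : ℤ) ^ ((K1 + 1) * K2 + (n + E)) := by positivity
    rw [pow_add, pow_one]
    nlinarith
  · refine hy.trans (pow_le_pow_right₀ hH1 (by omega))

end Pool.Agent.H97.RU
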