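import Pool.Agent.H97.SI.TRB
import Pool.Agent.H97.SI.RGC
import Pool.Agent.H97.ZE.SYL

/-! # [H97 RU RUA] RUNGE: an irreducible polynomial is a model at a transcendental point

Let `f.natDegree < G.natDegree`, `ev x w f = 0`, suppose `f ≠ 0`. `G` is irreducible in `k[X][X]` (`mirr_iff`), monic, so irreducible over
`FractionRing k[X]` (`Polynomial.Monic.irreducible_iff_irreducible_map_fraction_map`) and does not divide `f` there (smaller degree, `f ≠ 0`,
`Polynomial.degree_le_of_dvd`, injectivity `IsFractionRing.injective`). With `R = k[X]`, `m = G.natDegree`, `n = f.natDegree`: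
`d = (syl G f m n).det ≠ 0` (`syl_ne`), `C d = u * G + v * f` (`syl_comb`), apply `ev x w` (a ring homomorphism: `eval₂`): `aeval x d = 0`, against
transcendence. -/

namespace Pool.Agent.H97.RU

open Finset Polynomial Pool.Agent.H37.SI Pool.Agent.H97.SI Pool.Agent.H97.ZE

theorem model_of_irr {k K : Type} [Field k] [Field K] [Algebra k K] {x w : K} (hx : Transcendental k x)
    {κ : ℕ} {G : k[X][X]} (hG : G.Monic) (h1 : 1 ≤ G.natDegree) (hi : MIrr G) (hw : Wt κ G)
    (h0 : ev x w G = 0) : Model x w κ G := by
  refine ⟨hG, hw, h0, fun f hf hf0 => ?_⟩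
  by_contra hne
  have hirr0 : Irreducible G := (mirr_iff hG h1).1 hi
  have hinj : Function.Injective (algebraMap k[X] (FractionRing k[X])) :=
    IsFractionRing.injective k[X] _
  have hirr : Irreducible (G.map (algebraMap k[X] (FractionRing k[X]))) :=
    (hG.irreducible_iff_irreducible_map_fraction_map (K := FractionRing k[X])).1 hirr0
  have hnd : ¬ G.map (algebraMap k[X] (FractionRing k[X])) ∣
      f.map (algebraMap k[X] (FractionRing k[X])) := by
    intro hd
    have h2 := natDegree_le_of_dvd hd ((Polynomial.map_ne_zero_iff hinj).2 hne)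
    rw [natDegree_map_eq_of_injective hinj, natDegree_map_eq_of_injective hinj] at h2
    omega
  have hdet := syl_ne (R := k[X]) (f := G) (g := f) rfl le_rfl hirr hnd
  obtain ⟨u, v, huv⟩ := syl_comb (R := k[X]) (f := G) (g := f) (m := G.natDegree)
    (n := f.natDegree) le_rfl le_rfl (by omega)
  apply hdet
  have h3 := congrArg (ev x w) huv
  unfold ev at h3 h0 hf0
  rw [eval₂_C, eval₂_add, eval₂_mul, eval₂_mul, h0, hf0, mul_zero, mul_zero, add_zero] at h3
  exact transcendental_iff.1 hx _ h3

end Pool.Agent.H97.RU
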