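import Pool.Agent.H97.RU.RUA

/-! # [H97 RU RUB] RUNGE for monic curves, uniform in the coefficients

`n` fixed. Suppose there is no `K`: for every `N` (as `K`) there are `H N ≥ 2`, `G N`, `P1 N`, `P2 N`, `x N`, `w N` as in the statement with
`|x N| > H N ^ N`. The degrees of `G N`, `P1 N` are at most `n`: for `UU`-almost all `N` they are constants `D`, `D1`
(`Ultrafilter.eventually_exists_lt_iff`-type: a finite union in an ultrafilter, `Ultrafilter.finite_biUnion_mem_iff`); replace the other members by a fixed one of these.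
FRAME (`Pool.Agent.H82.NS`, `H97/SI/TRA.lean`): `𝒢 ∈ (ℕ → ℚ)[X][X]` with members `(G N)` over `ℚ` (`seq2`), `𝒫1, 𝒫2 ∈ (ℕ → ℚ)[X]` (`seq1`). All coefficients of `𝒢.map (clH)` are
classes of integer sequences bounded by `H N`: in `Q0 H` (`Small H`): so there is `Ĝ ∈ (Q0 H)[X][X]` with `Ĝ.map = 𝒢.map (mapRingHom (clH ℚ))`.
* `Ĝ` is monic of degree `D`, weights: `(Ĝ.coeff j).natDegree ≤ D - j` (coefficients are classes of the coefficients: zero if almost all are).
* `MIrr Ĝ`: if `Ĝ = A B`, monic: map to `QS`, choose sequences of polynomials (as in `irrm2`, `H97/SI/TRB.lean`): `eq2` gives `A_N B_N = G_N` for almost all `N`, both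
 monic for almost all `N`, so `A_N = 1` or `B_N = 1` for almost all `N` (ultrafilter), `A = 1` or `B = 1`.
* `lf 1 Ĝ` mapped to `QS` is `P̂1 P̂2`, `P̂i = 𝒫i.map (clH ℚ)` monic of positive degree (`eq1`). `Q0 H` is algebraically closed in `QS` (`q0_alg`), so by `fac1` (`H97/SI/IRL.lean`)
 `P̂1, P̂2` come from monic `p1, p2 ∈ (Q0 H)[X]`, `lf 1 Ĝ = p1 p2`. COPRIME: otherwise `P̂1, P̂2` have a common monic divisor `Q̂` of positive
 degree (`EuclideanDomain.gcd`, normalised), `P̂1 = Q̂ A`, `P̂2 = Q̂ B`; `eq1`: the same for almost all members with `Q_N` of positive degree (leading coefficient): against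
 `IsCoprime (P1 N) (P2 N)`. (`IsCoprime` goes down along field extensions: `Polynomial.isCoprime_map`.)
* `X' = cl (x N) ∈ ZS`, not in `Q0 H` (`|x N| > H N ^ N` is not polynomially bounded in `H N + 2 ≤ (H N)^2`), so not in `V0 H` (`zs_big`), transcendental over `Q0 H`
 (`q0_alg`). `W = cl (w N) ∈ ZS`, `ev X' W Ĝ = 0` (`ev_cl`).
* `model_of_irr`, then `runge_fr` with `Z1 = ZS`, `B = V0 H` (see `frame_good` in `H97/SI/FGD.lean` for `hQB`, `hZB` (`zs_small`), `hden` (`q0_den`)). -/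

namespace Pool.Agent.H97.RU

open Filter Finset Polynomial Pool.Agent.H82.NS Pool.Agent.H37.SI Pool.Agent.H97.SI

/-- the polynomial with coefficients `a i j` (`i, j ≤ D`) -/
private noncomputable def pol {R : Type*} [CommRing R] (D : ℕ) (a : ℕ → ℕ → R) : R[X][X] :=
  ∑ j ∈ range (D + 1), C (∑ i ∈ range (D + 1), C (a i j) * X ^ i) * X ^ j

private theorem pol_coeff {R : Type*} [CommRing R] (D : ℕ) (a : ℕ → ℕ → R) (i j : ℕ) :
    ((pol D a).coeff j).coeff i = if j ≤ D then (if i ≤ D then a i j else 0) else 0 := by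
  unfold pol
  rw [finsetSum_coeff]
  simp only [coeff_C_mul_X_pow]
  rw [Finset.sum_ite_eq]
  simp only [mem_range, Nat.lt_succ_iff]
  split_ifs with h1 h2
  · rw [finsetSum_coeff]
    simp only [coeff_C_mul_X_pow]
    rw [Finset.sum_ite_eq]
    simp only [mem_range, Nat.lt_succ_iff]
    rw [if_pos h2]
  · rw [finsetSum_coeff]
    simp only [coeff_C_mul_X_pow]
    rw [Finset.sum_ite_eq]
    simp only [mem_range, Nat.lt_succ_iff]
    rw [if_neg h2]
  · rw [coeff_zero]

private theorem pol_eq {R : Type*} [CommRing R] {D : ℕ} {G : R[X][X]} (h1 : G.natDegree ≤ D)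
    (h2 : ∀ j, (G.coeff j).natDegree ≤ D) : pol D (fun i j => (G.coeff j).coeff i) = G := by
  refine Polynomial.ext fun j => Polynomial.ext fun i => ?_
  rw [pol_coeff]
  split_ifs with h3 h4
  · rfl
  · rw [coeff_eq_zero_of_natDegree_lt (lt_of_le_of_lt (h2 j) (by omega))]
  · rw [coeff_eq_zero_of_natDegree_lt (lt_of_le_of_lt h1 (by omega)), coeff_zero]

private theorem pol_map {R S : Type*} [CommRing R] [CommRing S] (f : R →+* S) (D : ℕ)
    (a : ℕ → ℕ → R) : (pol D a).map (mapRingHom f) = pol D (fun i j => f (a i j)) := by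
  refine Polynomial.ext fun j => Polynomial.ext fun i => ?_
  rw [coeff_map, coe_mapRingHom, coeff_map, pol_coeff, pol_coeff]
  split_ifs
  · rfl
  · exact map_zero f
  · exact map_zero f

private theorem lead_map' {R S : Type*} [CommRing R] [CommRing S] (φ : R →+* S) (κ D : ℕ)
    (G : R[X][X]) : (lead κ D G).map φ = lead κ D (G.map (mapRingHom φ)) := by
  unfold lead
  rw [Polynomial.map_sum]
  refine Finset.sum_congr rfl fun j _ => ?_
  rw [Polynomial.map_mul, map_C, Polynomial.map_pow, map_X, coeff_map, coe_mapRingHom, coeff_map]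

private theorem lift_monic {R S : Type*} [CommRing R] [CommRing S] [Nontrivial S] {f : R →+* S}
    (hf : Function.Surjective f) {p : S[X]} (hp : p.Monic) :
    ∃ q : R[X], q.map f = p ∧ q.natDegree = p.natDegree ∧ q.Monic := by
  refine lifts_and_natDegree_eq_and_monic ?_ hp
  rw [lifts_iff_coeff_lifts]
  intro n
  exact hf _

/-- the main part: everything for all members, fixed degrees -/
private theorem core {D : ℕ} (H : ℕ → ℕ) (G : ℕ → ℤ[X][X]) (P1 P2 : ℕ → ℚ[X]) (x w : ℕ → ℤ)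
    (hH : ∀ N, 2 ≤ H N) (hG : ∀ N, (G N).Monic) (hD : 1 ≤ D) (hGd : ∀ N, (G N).natDegree = D)
    (hGw : ∀ N j, ((G N).coeff j).natDegree ≤ D - j)
    (hGc : ∀ N i j, |((G N).coeff j).coeff i| ≤ (H N : ℤ))
    (hGi : ∀ N, MIrr ((G N).map (mapRingHom (Int.castRingHom ℚ))))
    (hP1 : ∀ N, (P1 N).Monic) (hP2 : ∀ N, (P2 N).Monic) {D1 D2 : ℕ}
    (hd1 : ∀ N, (P1 N).natDegree = D1) (hd2 : ∀ N, (P2 N).natDegree = D2)
    (hD1 : 0 < D1) (hD2 : 0 < D2) (hcop : ∀ N, IsCoprime (P1 N) (P2 N))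
    (hlf : ∀ N, Pool.Agent.H37.SI.lf 1 ((G N).map (mapRingHom (Int.castRingHom ℚ))) = P1 N * P2 N)
    (h0 : ∀ N, evalEval (x N) (w N) (G N) = 0)
    (hx : ∀ᶠ N in UU, (H N : ℤ) ^ N < |x N|) : False := by
  classical
  -- the coefficients
  obtain ⟨a, ha⟩ : ∃ a : ℕ → ℕ → (ℕ → ℚ), a = fun i j N => (((G N).coeff j).coeff i : ℚ) := ⟨_, rfl⟩
  have hsm : ∀ i j, cl (a i j) ∈ Q0 H := by
    intro i j
    refine ⟨a i j, ⟨1, fun N => ?_⟩, rfl⟩
    rw [ha]
    constructor
    · show ((((G N).coeff j).coeff i : ℚ)).num.natAbs ≤ _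
      rw [Rat.num_intCast, pow_one]
      have h1 := hGc N i j
      rw [Int.abs_eq_natAbs] at h1
      have h2 : (((G N).coeff j).coeff i).natAbs ≤ H N := by exact_mod_cast h1
      omega
    · show ((((G N).coeff j).coeff i : ℚ)).den ≤ _
      rw [Rat.den_intCast, pow_one]
      omega
  obtain ⟨b, hb⟩ : ∃ b : ℕ → ℕ → Q0 H, ∀ i j, ((b i j : Q0 H) : QS) = cl (a i j) :=
    ⟨fun i j => ⟨cl (a i j), hsm i j⟩, fun i j => rfl⟩
  have hGdeg : ∀ N j, ((G N).coeff j).natDegree ≤ D := fun N j => (hGw N j).trans (Nat.sub_le _ _)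
  obtain ⟨GG, hGG⟩ : ∃ GG : (ℕ → ℚ)[X][X], GG = pol D a := ⟨_, rfl⟩
  obtain ⟨Gh, hGh⟩ : ∃ Gh : (Q0 H)[X][X], Gh = pol D b := ⟨_, rfl⟩
  have hGN : ∀ N, GG.map (mapRingHom (evN ℚ N)) = (G N).map (mapRingHom (Int.castRingHom ℚ)) := by
    intro N
    have h1 := pol_eq (hGd N).le (hGdeg N)
    rw [hGG, pol_map]
    conv_rhs => rw [← h1, pol_map]
    congr 1
    funext i j
    rw [ha]
    rfl
  have hGmap : GG.map (mapRingHom (clH ℚ)) = Gh.map (mapRingHom (algebraMap (Q0 H) QS)) := by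
    rw [hGG, hGh, pol_map, pol_map]
    congr 1
    funext i j
    exact (hb i j).symm
  have hinj : Function.Injective (algebraMap (Q0 H) QS) := (algebraMap (Q0 H) QS).injective
  -- zero and one
  have hbz : ∀ i j, D - j < i → b i j = 0 := by
    intro i j hij
    apply Subtype.ext
    rw [hb]
    show cl (a i j) = 0
    rw [cl_zero, cl_eq]
    refine Eventually.of_forall fun N => ?_
    rw [ha]
    show (((G N).coeff j).coeff i : ℚ) = 0
    rw [coeff_eq_zero_of_natDegree_lt (lt_of_le_of_lt (hGw N j) hij), Int.cast_zero]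
  have hb1 : b 0 D = 1 := by
    apply Subtype.ext
    rw [hb]
    show cl (a 0 D) = 1
    rw [cl_one, cl_eq]
    refine Eventually.of_forall fun N => ?_
    rw [ha]
    show (((G N).coeff D).coeff 0 : ℚ) = 1
    have h1 : (G N).coeff D = 1 := by
      rw [← hGd N]
      exact hG N
    rw [h1, coeff_one_zero, Int.cast_one]
  have hGhc : ∀ j, D < j → Gh.coeff j = 0 := by
    intro j hj
    ext i
    rw [hGh, pol_coeff, if_neg (by omega), coeff_zero]
  have hGhD : Gh.coeff D = 1 := by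
    ext i
    rw [hGh, pol_coeff, if_pos le_rfl, coeff_one]
    split_ifs with h1 h2 h3
    · rw [h2, hb1]
    · exact congrArg Subtype.val (hbz i D (by omega))
    · omega
    · rfl
  have hGhd : Gh.natDegree = D := by
    apply le_antisymm
    · rw [natDegree_le_iff_coeff_eq_zero]
      exact fun j hj => hGhc j hj
    · apply le_natDegree_of_ne_zero
      rw [hGhD]
      exact one_ne_zero
  have hGhm : Gh.Monic := by
    unfold Monic leadingCoeff
    rw [hGhd, hGhD]
  have hGhw : Wt 1 Gh := by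
    intro j
    rw [hGhd, one_mul, natDegree_le_iff_coeff_eq_zero]
    intro i hi
    rw [hGh, pol_coeff]
    split_ifs
    · exact hbz i j hi
    · rfl
    · rfl
  -- irreducible
  have hGhi : MIrr Gh := by
    intro A B hA hB hAB
    have hs : Function.Surjective (mapRingHom (clH ℚ)) := by
      rw [coe_mapRingHom]
      exact map_surjective _ clH_surj
    obtain ⟨A', hA1, hA2, hA3⟩ := lift_monic hs (hA.map (mapRingHom (algebraMap (Q0 H) QS)))
    obtain ⟨B', hB1, hB2, hB3⟩ := lift_monic hs (hB.map (mapRingHom (algebraMap (Q0 H) QS)))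
    have h1 : (A' * B').map (mapRingHom (clH ℚ)) = GG.map (mapRingHom (clH ℚ)) := by
      rw [Polynomial.map_mul, hA1, hB1, ← Polynomial.map_mul, hAB, hGmap]
    rw [eq2] at h1
    obtain ⟨N, hN⟩ := h1.exists
    rw [hGN, Polynomial.map_mul] at hN
    rcases hGi N _ _ (hA3.map _) (hB3.map _) hN with h | h
    · left
      have h2 := congrArg natDegree h
      rw [hA3.natDegree_map, hA2, hA.natDegree_map, natDegree_one] at h2
      exact hA.natDegree_eq_zero.1 h2
    · right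
      have h2 := congrArg natDegree h
      rw [hB3.natDegree_map, hB2, hB.natDegree_map, natDegree_one] at h2
      exact hB.natDegree_eq_zero.1 h2
  -- the leading form
  obtain ⟨Q1, hQ1⟩ := seq1 P1 D1 (fun N => (hd1 N).le)
  obtain ⟨Q2, hQ2⟩ := seq1 P2 D2 (fun N => (hd2 N).le)
  have mon : ∀ {Q : (ℕ → ℚ)[X]} {P : ℕ → ℚ[X]} {d : ℕ}, (∀ N, (P N).Monic) →
      (∀ N, (P N).natDegree = d) → (∀ N, Q.map (evN ℚ N) = P N) →
      (Q.map (clH ℚ)).Monic ∧ (Q.map (clH ℚ)).natDegree = d := by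
    intro Q P d hm hd hQ
    have h1 : ∀ i N, Q.coeff i N = (P N).coeff i := by
      intro i N
      rw [← hQ N, coeff_map]
      rfl
    have h2 : (Q.map (clH ℚ)).coeff d = 1 := by
      rw [coeff_map]
      show cl (Q.coeff d) = 1
      rw [cl_one, cl_eq]
      refine Eventually.of_forall fun N => ?_
      rw [h1, ← hd N]
      exact hm N
    have h3 : (Q.map (clH ℚ)).natDegree = d := by
      apply le_antisymm
      · rw [natDegree_le_iff_coeff_eq_zero]
        intro i hi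
        rw [coeff_map]
        show cl (Q.coeff i) = 0
        rw [cl_zero, cl_eq]
        refine Eventually.of_forall fun N => ?_
        rw [h1, coeff_eq_zero_of_natDegree_lt]
        rw [hd N]
        exact hi
      · apply le_natDegree_of_ne_zero
        rw [h2]
        exact one_ne_zero
    refine ⟨?_, h3⟩
    unfold Monic leadingCoeff
    rw [h3, h2]
  obtain ⟨hm1, he1⟩ := mon hP1 hd1 hQ1
  obtain ⟨hm2, he2⟩ := mon hP2 hd2 hQ2
  have hlead : (lf 1 Gh).map (algebraMap (Q0 H) QS) = Q1.map (clH ℚ) * Q2.map (clH ℚ) := by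
    have h1 : lf 1 Gh = lead 1 D Gh := by
      rw [← hGhd]
      rfl
    rw [h1, lead_map', ← hGmap, ← lead_map', ← Polynomial.map_mul, eq1]
    refine Eventually.of_forall fun N => ?_
    rw [lead_map', hGN, Polynomial.map_mul, hQ1, hQ2, ← hlf N]
    have h2 : ((G N).map (mapRingHom (Int.castRingHom ℚ))).natDegree = D := by
      rw [(hG N).natDegree_map, hGd N]
    rw [← h2]
    rfl
  have hk : ∀ z : QS, IsAlgebraic (Q0 H) z → ∃ c : Q0 H, algebraMap (Q0 H) QS c = z :=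
    fun z hz => ⟨⟨z, q0_alg H z hz⟩, rfl⟩
  have hlfm : (lf 1 Gh).Monic := (lead_monic (κ := 1) hGhm rfl).1
  obtain ⟨p1, hp1m, hp1⟩ := fac1 hk hlfm hm1 hlead
  obtain ⟨p2, hp2m, hp2⟩ := fac1 hk hlfm hm2 (hlead.trans (mul_comm _ _))
  have hpl : lf 1 Gh = p1 * p2 := by
    apply map_injective _ hinj
    rw [hlead, Polynomial.map_mul, hp1, hp2]
  have hpd1 : p1.natDegree = D1 := by rw [← he1, ← hp1, hp1m.natDegree_map]
  have hpd2 : p2.natDegree = D2 := by rw [← he2, ← hp2, hp2m.natDegree_map]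
  have hpc : IsCoprime p1 p2 := by
    refine isCoprime_of_dvd _ _ (fun h => hp1m.ne_zero h.1) fun z hz hz0 hz1 hz2 => ?_
    obtain ⟨q, hq⟩ : ∃ q, q = z * C z.leadingCoeff⁻¹ := ⟨_, rfl⟩
    have hlc : z.leadingCoeff ≠ 0 := leadingCoeff_ne_zero.2 hz0
    have hqm : q.Monic := by
      rw [hq]
      exact monic_mul_leadingCoeff_inv hz0
    have hu : IsUnit (C z.leadingCoeff⁻¹ : (Q0 H)[X]) := isUnit_C.2 (IsUnit.mk0 _ (inv_ne_zero hlc))
    have hq1 : q ∣ p1 := by
      rw [hq]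
      exact (hu.mul_right_dvd).2 hz1
    have hq2 : q ∣ p2 := by
      rw [hq]
      exact (hu.mul_right_dvd).2 hz2
    have hqd : q.natDegree ≠ 0 := by
      intro h
      have h1 := hqm.natDegree_eq_zero.1 h
      rw [hq] at h1
      exact hz (IsUnit.of_mul_eq_one _ h1)
    obtain ⟨s, hs⟩ := hq1
    obtain ⟨t, ht⟩ := hq2
    obtain ⟨q', hq'1, hq'2, hq'3⟩ := lift_monic (f := clH ℚ) clH_surj (hqm.map (algebraMap (Q0 H) QS))
    obtain ⟨s', hs'⟩ := map_surjective (clH ℚ) clH_surj (s.map (algebraMap (Q0 H) QS))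
    obtain ⟨t', ht'⟩ := map_surjective (clH ℚ) clH_surj (t.map (algebraMap (Q0 H) QS))
    have f1 : Q1.map (clH ℚ) = (q' * s').map (clH ℚ) := by
      rw [Polynomial.map_mul, hq'1, hs', ← Polynomial.map_mul, ← hs, hp1]
    have f2 : Q2.map (clH ℚ) = (q' * t').map (clH ℚ) := by
      rw [Polynomial.map_mul, hq'1, ht', ← Polynomial.map_mul, ← ht, hp2]
    rw [eq1] at f1 f2
    obtain ⟨N, g1, g2⟩ := (f1.and f2).exists
    rw [hQ1, Polynomial.map_mul] at g1
    rw [hQ2, Polynomial.map_mul] at g2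
    have h3 := (hcop N).isUnit_of_dvd' (Dvd.intro _ g1.symm) (Dvd.intro _ g2.symm)
    have h4 : (q'.map (evN ℚ N)) = 1 := (hq'3.map _).isUnit_iff.1 h3
    have h5 := congrArg natDegree h4
    rw [hq'3.natDegree_map, hq'2, hqm.natDegree_map, natDegree_one] at h5
    exact hqd h5
  -- the point
  have hxZ : (cl fun N => (x N : ℚ) : QS) ∈ ZS := mem_zs.2 ⟨x, rfl⟩
  have hwZ : (cl fun N => (w N : ℚ) : QS) ∈ ZS := mem_zs.2 ⟨w, rfl⟩
  have hxQ : (cl fun N => (x N : ℚ) : QS) ∉ Q0 H := by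
    intro h
    obtain ⟨c, y, hy1, hy2⟩ := zs_rep H hxZ h
    rw [cl_eq] at hy1
    have hlarge : ∀ᶠ N in UU, 2 * c ≤ N := by
      have h1 : ∀ᶠ N in atTop, 2 * c ≤ N := eventually_ge_atTop _
      rw [← Nat.cofinite_eq_atTop] at h1
      exact hyperfilter_le_cofinite h1
    obtain ⟨N, g1, g2, g3⟩ := (hy1.and (hlarge.and hx)).exists
    have g1' : x N = y N := by exact_mod_cast g1
    have g4 := hy2 N
    rw [← g1'] at g4
    have hHN : (2 : ℤ) ≤ (H N : ℤ) := by exact_mod_cast hH N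
    have hbase : ((H N + 2 : ℕ) : ℤ) ≤ (H N : ℤ) ^ 2 := by
      push_cast
      nlinarith
    have g5 : ((H N + 2 : ℕ) : ℤ) ^ c ≤ (H N : ℤ) ^ N := by
      calc ((H N + 2 : ℕ) : ℤ) ^ c ≤ ((H N : ℤ) ^ 2) ^ c := pow_le_pow_left₀ (by positivity) hbase c
        _ = (H N : ℤ) ^ (2 * c) := by rw [← pow_mul]
        _ ≤ _ := pow_le_pow_right₀ (by linarith) g2
    linarith
  have hxT : Transcendental (Q0 H) (cl fun N => (x N : ℚ) : QS) := fun h => hxQ (q0_alg H _ h)
  have hev : ev (cl fun N => (x N : ℚ) : QS) (cl fun N => (w N : ℚ) : QS) Gh = 0 := by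
    have h1 : eval₂ (eval₂RingHom (algebraMap (Q0 H) QS) (cl fun N => (x N : ℚ)))
        (cl fun N => (w N : ℚ)) Gh = 0 := by
      rw [eval₂_eval₂RingHom_apply, ← hGmap, ev_cl, cl_zero, cl_eq]
      refine Eventually.of_forall fun N => ?_
      rw [hGN]
      have h2 := map_mapRingHom_eval_map_eval (Int.castRingHom ℚ) (G N) (q := C (w N)) (r := x N)
      rw [map_C] at h2
      have h3 : evalEval ((x N : ℤ) : ℚ) ((w N : ℤ) : ℚ) ((G N).map (mapRingHom (Int.castRingHom ℚ))) =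
          ((evalEval (x N) (w N) (G N) : ℤ) : ℚ) := h2
      rw [h3, h0 N, Int.cast_zero]
    exact h1
  have M := model_of_irr hxT hGhm (by rw [hGhd]; exact hD) hGhi hGhw hev
  have hQB : ∀ c : Q0 H, algebraMap (Q0 H) QS c ∈ V0 H := by
    intro c
    rcases abs_choice (c : QS) with h | h
    · exact ⟨(c : QS), c.2, le_of_eq h⟩
    · exact ⟨-(c : QS), (Q0 H).neg_mem c.2, le_of_eq h⟩
  have hZB : ∀ z ∈ ZS, z ∈ V0 H → ∃ c : Q0 H, algebraMap (Q0 H) QS c = z := by
    rintro z hz ⟨r, hr, hzr⟩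
    exact ⟨⟨z, zs_small H z r hz hr hzr⟩, rfl⟩
  exact runge_fr ZS (V0 H) hQB hZB (fun c => q0_den H c) hxZ hwZ (zs_big H _ hxZ hxQ) M hpl hpc
    (by rw [hpd1]; exact hD1) (by rw [hpd2]; exact hD2)

theorem rung (n : ℕ) : ∃ K : ℕ, ∀ (H : ℕ) (G : ℤ[X][X]), 2 ≤ H → G.Monic → 1 ≤ G.natDegree →
    G.natDegree ≤ n → (∀ j, (G.coeff j).natDegree ≤ G.natDegree - j) →
    (∀ i j, |(G.coeff j).coeff i| ≤ (H : ℤ)) → MIrr (G.map (mapRingHom (Int.castRingHom ℚ))) →
    ∀ P1 P2 : ℚ[X], P1.Monic → P2.Monic → 0 < P1.natDegree → 0 < P2.natDegree → IsCoprime P1 P2 →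
    Pool.Agent.H37.SI.lf 1 (G.map (mapRingHom (Int.castRingHom ℚ))) = P1 * P2 →
    ∀ x w : ℤ, evalEval x w G = 0 → |x| ≤ (H : ℤ) ^ K := by
  classical
  by_contra hcon
  push Not at hcon
  choose H G hH hGm hG1 hGn hGw hGc hGi P1 P2 hP1 hP2 hd1 hd2 hcop hlf x w h0 hx using hcon
  -- the degrees
  have hdeg : ∀ N, (P1 N).natDegree + (P2 N).natDegree = (G N).natDegree := by
    intro N
    have h1 := (lead_monic (κ := 1) ((hGm N).map (mapRingHom (Int.castRingHom ℚ))) rfl).2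
    rw [← (hP1 N).natDegree_mul (hP2 N), ← hlf N]
    rw [(hGm N).natDegree_map] at h1
    rw [← h1]
    unfold lf lead
    rw [(hGm N).natDegree_map]
  have h2 : ∀ᶠ N in UU, ∃ ab : ℕ × ℕ, ab ∈ ((range (n + 1) ×ˢ range (n + 1) : Finset (ℕ × ℕ)) :
      Set (ℕ × ℕ)) ∧ (P1 N).natDegree = ab.1 ∧ (P2 N).natDegree = ab.2 := by
    refine Eventually.of_forall fun N => ?_
    refine ⟨((P1 N).natDegree, (P2 N).natDegree), ?_, rfl, rfl⟩
    rw [Finset.mem_coe, Finset.mem_product, Finset.mem_range, Finset.mem_range]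
    have h3 := hdeg N
    have h4 := hGn N
    constructor
    · show (P1 N).natDegree < n + 1
      omega
    · show (P2 N).natDegree < n + 1
      omega
  rw [Ultrafilter.eventually_exists_mem_iff (Finset.finite_toSet _)] at h2
  obtain ⟨⟨D1, D2⟩, -, h3⟩ := h2
  obtain ⟨N0, hN0⟩ := h3.exists
  obtain ⟨σ, hσ⟩ : ∃ σ : ℕ → ℕ, ∀ N, ((P1 (σ N)).natDegree = D1 ∧ (P2 (σ N)).natDegree = D2) ∧
      (((P1 N).natDegree = D1 ∧ (P2 N).natDegree = D2) → σ N = N) := by
    refine ⟨fun N => if (P1 N).natDegree = D1 ∧ (P2 N).natDegree = D2 then N else N0, fun N => ?_⟩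
    by_cases h : (P1 N).natDegree = D1 ∧ (P2 N).natDegree = D2
    · simp only [if_pos h]
      exact ⟨h, fun _ => trivial⟩
    · simp only [if_neg h]
      exact ⟨hN0, fun h' => absurd h' h⟩
  have hGd : ∀ N, (G (σ N)).natDegree = D1 + D2 := by
    intro N
    rw [← hdeg, (hσ N).1.1, (hσ N).1.2]
  refine core (D := D1 + D2) (D1 := D1) (D2 := D2) (fun N => H (σ N)) (fun N => G (σ N))
    (fun N => P1 (σ N)) (fun N => P2 (σ N)) (fun N => x (σ N)) (fun N => w (σ N))
    (fun N => hH _) (fun N => hGm _) ?_ hGd ?_ (fun N => hGc _) (fun N => hGi _) (fun N => hP1 _)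
    (fun N => hP2 _) (fun N => (hσ N).1.1) (fun N => (hσ N).1.2) ?_ ?_ (fun N => hcop _)
    (fun N => hlf _) (fun N => h0 _) ?_
  · rw [← hGd 0]
    exact hG1 _
  · intro N j
    rw [← hGd N]
    exact hGw _ j
  · rw [← (hσ 0).1.1]
    exact hd1 _
  · rw [← (hσ 0).1.2]
    exact hd2 _
  · filter_upwards [h3] with N hN
    have h4 := (hσ N).2 hN
    show (H (σ N) : ℤ) ^ N < |x (σ N)|
    rw [h4]
    exact hx N

end Pool.Agent.H97.RU
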