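import Mathlib

/-! # [H97 RU RUC] RUNGE: homogeneous forms and polynomials in one variable

`dh c g = g(1 + c T, T) ∈ ℚ[T]`.
* `dh_top`: for `g` homogeneous of degree `d` the coefficient of `T^d` in `g(1 + c T, T)` is `g(c, 1)`, and the degree is at most `d` (monomials
  `x^i y^(d-i)`: `(1 + c T)^i T^(d-i)` has degree `≤ d` and coefficient `c^i` of `T^d`).
* `dh_cop`: suppose `q`, monic irreducible of degree `e ≥ 1`, divides `dh c g` and `dh c h` (if they are not coprime: `EuclideanDomain` / `isCoprime_of_irreducible_dvd`-type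
  lemma; `dh c g ≠ 0` because of its coefficient `T^d1`). `dh c g = q s`, of degree exactly `d1`, `s` of degree `d1 - e`. Homogenise: for a polynomial `p` of degree `≤ k` put
  `p^(x, y) = ∑_j p_j x^(k-j) y^j`; the homogenisation of a product (degrees `k + l`) is the product. The homogenisation of `dh c g` of degree `d1` is `g(x + c y, y)`
  (both are homogeneous of degree `d1` and agree at `x = 1`; or compare coefficients). So `Q(x, y)` = the homogenisation of `q` divides `g(x + c y, y)` and `h(x + c y, y)`;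
  substitute `x ↦ x - c y`: `Q(x - c y, y)` divides `g` and `h`, so it is a unit by `IsRelPrime`; but it is homogeneous of degree `e ≥ 1`, not zero. -/

namespace Pool.Agent.H97.RU

open Finset

/-- `g(1 + c T, T)` -/
noncomputable def dh (c : ℤ) (g : MvPolynomial (Fin 2) ℚ) : Polynomial ℚ :=
  MvPolynomial.aeval ![1 + Polynomial.C (c : ℚ) * Polynomial.X, Polynomial.X] g

private theorem dh_sum (c : ℤ) (g : MvPolynomial (Fin 2) ℚ) :
    dh c g = ∑ v ∈ g.support, Polynomial.C (MvPolynomial.coeff v g) *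
      ((1 + Polynomial.C (c : ℚ) * Polynomial.X) ^ (v 0) * Polynomial.X ^ (v 1)) := by
  unfold dh
  rw [MvPolynomial.aeval_def, MvPolynomial.eval₂_eq']
  refine Finset.sum_congr rfl fun v _ => ?_
  rw [Fin.prod_univ_two]
  rfl

private theorem hom_two {g : MvPolynomial (Fin 2) ℚ} {d : ℕ} (hg : g.IsHomogeneous d)
    {v : Fin 2 →₀ ℕ} (hv : v ∈ g.support) : v 0 + v 1 = d := by
  have h := hg (MvPolynomial.mem_support_iff.1 hv)
  rw [Finsupp.weight_apply, Finsupp.sum_fintype _ _ (by intro i; simp)] at h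
  simpa [Fin.sum_univ_two] using h

theorem dh_top (c : ℤ) {g : MvPolynomial (Fin 2) ℚ} {d : ℕ} (hg : g.IsHomogeneous d) :
    (dh c g).natDegree ≤ d ∧ (dh c g).coeff d = MvPolynomial.eval ![(c : ℚ), 1] g := by
  have hlin : ((1 : Polynomial ℚ) + Polynomial.C (c : ℚ) * Polynomial.X).natDegree ≤ 1 := by
    rw [add_comm]
    exact Polynomial.natDegree_linear_le (a := (c : ℚ)) (b := 1)
  constructor
  · rw [dh_sum]
    refine Polynomial.natDegree_sum_le_of_forall_le _ _ fun v hv => ?_
    have hd := hom_two hg hv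
    refine (Polynomial.natDegree_C_mul_le _ _).trans ?_
    refine (Polynomial.natDegree_mul_le).trans ?_
    have h1 : ((1 + Polynomial.C (c : ℚ) * Polynomial.X) ^ (v 0)).natDegree ≤ v 0 * 1 :=
      Polynomial.natDegree_pow_le_of_le _ hlin
    have h2 : ((Polynomial.X : Polynomial ℚ) ^ (v 1)).natDegree = v 1 := Polynomial.natDegree_X_pow _
    omega
  · rw [dh_sum, Polynomial.finsetSum_coeff, MvPolynomial.eval_eq']
    refine Finset.sum_congr rfl fun v hv => ?_
    have hd := hom_two hg hv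
    rw [Polynomial.coeff_C_mul, Fin.prod_univ_two, ← hd, Polynomial.coeff_mul_X_pow]
    have h1 : ((1 + Polynomial.C (c : ℚ) * Polynomial.X) ^ (v 0)).coeff (v 0) = (c : ℚ) ^ (v 0) := by
      have := Polynomial.coeff_pow_of_natDegree_le (p := (1 + Polynomial.C (c : ℚ) * Polynomial.X)) (n := 1) hlin (m := v 0)
      rw [mul_one] at this
      rw [this]
      congr 1
      simp [Polynomial.coeff_one]
    rw [h1]
    simp

private noncomputable def hc (c : ℤ) (k : ℕ) (p : Polynomial ℚ) : MvPolynomial (Fin 2) ℚ :=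
  ∑ j ∈ range (k + 1), MvPolynomial.C (p.coeff j) *
    ((MvPolynomial.X 0 - MvPolynomial.C (c : ℚ) * MvPolynomial.X 1) ^ (k - j) * MvPolynomial.X 1 ^ j)

private theorem hc_eval (c : ℤ) (k : ℕ) (p : Polynomial ℚ) (hp : p.natDegree ≤ k) (x y : ℚ)
    (hu : x - c * y ≠ 0) :
    MvPolynomial.eval ![x, y] (hc c k p) = (x - c * y) ^ k * p.eval (y / (x - c * y)) := by
  unfold hc
  rw [map_sum, Polynomial.eval_eq_sum_range' (n := k + 1) (by omega), Finset.mul_sum]
  refine Finset.sum_congr rfl fun j hj => ?_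
  have hj' : j ≤ k := by simpa [Nat.lt_succ_iff] using hj
  simp only [map_mul, map_pow, map_sub, MvPolynomial.eval_C, MvPolynomial.eval_X,
    Matrix.cons_val_zero, Matrix.cons_val_one, Matrix.cons_val_fin_one]
  rw [div_pow]
  have : (x - c * y) ^ k = (x - c * y) ^ (k - j) * (x - c * y) ^ j := by
    rw [← pow_add]; congr 1; omega
  rw [this]
  field_simp

private theorem hom_eval (c : ℤ) {g : MvPolynomial (Fin 2) ℚ} {d : ℕ} (hg : g.IsHomogeneous d)
    (x y : ℚ) (hu : x - c * y ≠ 0) :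
    MvPolynomial.eval ![x, y] g = (x - c * y) ^ d * (dh c g).eval (y / (x - c * y)) := by
  rw [dh_sum, Polynomial.eval_finsetSum, MvPolynomial.eval_eq', Finset.mul_sum]
  refine Finset.sum_congr rfl fun v hv => ?_
  have hd := hom_two hg hv
  simp only [Polynomial.eval_mul, Polynomial.eval_C, Polynomial.eval_pow, Polynomial.eval_add,
    Polynomial.eval_one, Polynomial.eval_X, Fin.prod_univ_two, Matrix.cons_val_zero, Matrix.cons_val_one,
    Matrix.cons_val_fin_one]
  have h1 : 1 + (c : ℚ) * (y / (x - c * y)) = x / (x - c * y) := by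
    field_simp
    ring
  rw [h1, ← hd, pow_add, div_pow, div_pow]
  field_simp

private theorem agree (c : ℤ) (f1 f2 : MvPolynomial (Fin 2) ℚ)
    (h : ∀ x y : ℚ, x - c * y ≠ 0 → MvPolynomial.eval ![x, y] f1 = MvPolynomial.eval ![x, y] f2) :
    f1 = f2 := by
  have hne : (MvPolynomial.X 0 - MvPolynomial.C (c : ℚ) * MvPolynomial.X 1 : MvPolynomial (Fin 2) ℚ) ≠ 0 := by
    intro h0
    have := congrArg (MvPolynomial.eval ![(1 : ℚ), 0]) h0
    simp at this
  refine mul_left_cancel₀ hne ?_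
  refine MvPolynomial.funext fun z => ?_
  have hz : z = ![z 0, z 1] := by
    funext i; fin_cases i <;> rfl
  rw [hz]
  simp only [map_mul, map_sub, MvPolynomial.eval_C, MvPolynomial.eval_X,
    Matrix.cons_val_zero, Matrix.cons_val_one, Matrix.cons_val_fin_one]
  by_cases hu : z 0 - c * z 1 = 0
  · rw [hu, zero_mul, zero_mul]
  · rw [h _ _ hu]

private theorem hc_dvd (c : ℤ) {g : MvPolynomial (Fin 2) ℚ} {d : ℕ} (hg : g.IsHomogeneous d)
    (h1 : MvPolynomial.eval ![(c : ℚ), 1] g ≠ 0) {q : Polynomial ℚ} (hq : q ∣ dh c g) :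
    hc c q.natDegree q ∣ g := by
  obtain ⟨s, hs⟩ := hq
  have ht := dh_top c hg
  have hne : dh c g ≠ 0 := by
    intro h0
    rw [h0, Polynomial.coeff_zero] at ht
    exact h1 ht.2.symm
  have hq0 : q ≠ 0 := by rintro rfl; exact hne (by rw [hs, zero_mul])
  have hs0 : s ≠ 0 := by rintro rfl; exact hne (by rw [hs, mul_zero])
  have hdeg : (dh c g).natDegree = q.natDegree + s.natDegree := by
    rw [hs, Polynomial.natDegree_mul hq0 hs0]
  have hd : (dh c g).natDegree = d := by
    refine le_antisymm ht.1 (Polynomial.le_natDegree_of_ne_zero ?_)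
    rw [ht.2]; exact h1
  refine ⟨hc c s.natDegree s, ?_⟩
  refine agree c _ _ fun x y hu => ?_
  rw [map_mul, hc_eval c _ q le_rfl x y hu, hc_eval c _ s le_rfl x y hu, hom_eval c hg x y hu, hs,
    Polynomial.eval_mul, ← hd, hdeg, pow_add]
  ring

theorem dh_cop (c : ℤ) {g h : MvPolynomial (Fin 2) ℚ} {d1 d2 : ℕ} (hg : g.IsHomogeneous d1)
    (hh : h.IsHomogeneous d2) (hgh : IsRelPrime g h) (h1 : MvPolynomial.eval ![(c : ℚ), 1] g ≠ 0)
    (h2 : MvPolynomial.eval ![(c : ℚ), 1] h ≠ 0) : IsCoprime (dh c g) (dh c h) := by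
  have hne : dh c g ≠ 0 := by
    intro h0
    have ht := dh_top c hg
    rw [h0, Polynomial.coeff_zero] at ht
    exact h1 ht.2.symm
  refine isCoprime_of_dvd _ _ (fun h => hne h.1) fun q hq hq0 hqg hqh => ?_
  have hu := hgh (hc_dvd c hg h1 hqg) (hc_dvd c hh h2 hqh)
  rw [MvPolynomial.isUnit_iff_eq_C_of_isReduced] at hu
  obtain ⟨a, ha, hE⟩ := hu
  have hdeg : 0 < q.natDegree := by
    rcases Nat.eq_zero_or_pos q.natDegree with h0 | h0
    · exfalso
      apply hq
      rw [Polynomial.eq_C_of_natDegree_eq_zero h0] at hq0 ⊢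
      exact Polynomial.isUnit_C.2 (isUnit_iff_ne_zero.2 (by intro h; exact hq0 (by rw [h, Polynomial.C_0])))
    · exact h0
  have e1 := hc_eval c _ q le_rfl 1 0 (by norm_num)
  have e2 := hc_eval c _ q le_rfl 2 0 (by norm_num)
  rw [hE, MvPolynomial.eval_C] at e1 e2
  simp only [mul_zero, sub_zero, one_pow, zero_div, one_mul] at e1 e2
  rw [← e1] at e2
  have h2p : (2 : ℚ) ^ q.natDegree ≠ 1 := by
    intro h
    have := one_lt_pow₀ (by norm_num : (1 : ℚ) < 2) (by omega : q.natDegree ≠ 0)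
    linarith
  apply h2p
  have : a ≠ 0 := ha.ne_zero
  field_simp at e2
  linarith

end Pool.Agent.H97.RU
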